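import Mathlib

/-! The finite Ramsey theorem for pairs, with any finite number of colours. -/

set_option autoImplicit false

namespace Pool.Agent.Lib.Ramsey

open Classical

/-- End-homogeneous sets. -/
theorem exists_endHom (κ : Type) [Finite κ] (m : ℕ) :
    ∃ N : ℕ, ∀ (S : Finset ℕ) (c : ℕ → ℕ → κ), N ≤ S.card →
      ∃ T : Finset ℕ, T ⊆ S ∧ T.card = m ∧
        ∀ a ∈ T, ∀ b ∈ T, ∀ b' ∈ T, a < b → a < b' → c a b = c a b' := by
  have := Fintype.ofFinite κ
  induction m with
  | zero => exact ⟨0, fun S c _ => ⟨∅, by simp, by simp, by simp⟩⟩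
  | succ m ih =>
    obtain ⟨N, hN⟩ := ih
    refine ⟨Fintype.card κ * N + 2, fun S c hS => ?_⟩
    have hne : S.Nonempty := Finset.card_pos.mp (by omega)
    set a := S.min' hne with ha
    have haS : a ∈ S := Finset.min'_mem _ _
    have hcard : Fintype.card κ * N < (S.erase a).card := by
      rw [Finset.card_erase_of_mem haS]; omega
    obtain ⟨k, -, hk⟩ := Finset.exists_lt_card_fiber_of_mul_lt_card_of_maps_to
      (s := S.erase a) (t := (Finset.univ : Finset κ)) (f := fun b => c a b) (n := N)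
      (fun _ _ => Finset.mem_univ _) (by simpa using hcard)
    obtain ⟨T, hT, hTc, hTh⟩ := hN _ c hk.le
    have hT' : ∀ b ∈ T, b ∈ S ∧ a < b ∧ c a b = k := by
      intro b hb
      have := hT hb
      rw [Finset.mem_filter, Finset.mem_erase] at this
      exact ⟨this.1.2, lt_of_le_of_ne (Finset.min'_le _ _ this.1.2) (Ne.symm this.1.1), this.2⟩
    have haT : a ∉ T := fun h => lt_irrefl _ (hT' a h).2.1
    refine ⟨insert a T, ?_, by rw [Finset.card_insert_of_notMem haT, hTc], ?_⟩
    · intro b hb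
      rcases Finset.mem_insert.mp hb with rfl | hb
      · exact haS
      · exact (hT' b hb).1
    · intro x hx b hb b' hb' hxb hxb'
      have key : ∀ z ∈ insert a T, x < z → z ∈ T := by
        intro z hz hxz
        rcases Finset.mem_insert.mp hz with rfl | hz
        · rcases Finset.mem_insert.mp hx with rfl | hx
          · exact absurd hxz (lt_irrefl _)
          · exact absurd ((hT' x hx).2.1.trans hxz) (lt_irrefl _)
        · exact hz
      have hb2 := key b hb hxb
      have hb2' := key b' hb' hxb'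
      rcases Finset.mem_insert.mp hx with rfl | hx
      · rw [(hT' b hb2).2.2, (hT' b' hb2').2.2]
      · exact hTh x hx b hb2 b' hb2' hxb hxb'

/-- Finite Ramsey theorem for pairs. -/
theorem finite_ramsey (κ : Type) [Finite κ] [Nonempty κ] (n : ℕ) :
    ∃ N : ℕ, 0 < N ∧ ∀ c : Fin N → Fin N → κ, ∃ g : Fin n → Fin N, StrictMono g ∧
      ∃ k, ∀ i j, i < j → c (g i) (g j) = k := by
  have := Fintype.ofFinite κ
  obtain ⟨N, hN⟩ := exists_endHom κ (Fintype.card κ * n + 1)
  refine ⟨N + 1, Nat.succ_pos _, fun c => ?_⟩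
  let c' : ℕ → ℕ → κ := fun a b => c (Fin.ofNat (N + 1) a) (Fin.ofNat (N + 1) b)
  obtain ⟨T, hT, hTc, hTh⟩ := hN (Finset.range (N + 1)) c' (by simp)
  let col : ℕ → κ := fun a => if h : ∃ b ∈ T, a < b then c' a h.choose else Classical.arbitrary κ
  have hcol : ∀ a ∈ T, ∀ b ∈ T, a < b → c' a b = col a := by
    intro a ha b hb hab
    have h : ∃ b ∈ T, a < b := ⟨b, hb, hab⟩
    simp only [col, dif_pos h]
    exact hTh a ha b hb _ h.choose_spec.1 hab h.choose_spec.2
  obtain ⟨k, -, hk⟩ := Finset.exists_lt_card_fiber_of_mul_lt_card_of_maps_to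
      (s := T) (t := (Finset.univ : Finset κ)) (f := col) (n := n)
      (fun _ _ => Finset.mem_univ _) (by simp [hTc])
  obtain ⟨U, hU, hUc⟩ := Finset.exists_subset_card_eq hk.le
  have hU' : ∀ a ∈ U, a ∈ T ∧ col a = k := fun a ha => Finset.mem_filter.mp (hU ha)
  let e := U.orderEmbOfFin hUc
  have he : ∀ i, e i ∈ U := fun i => Finset.orderEmbOfFin_mem U hUc i
  have hlt : ∀ i, e i < N + 1 := fun i => Finset.mem_range.mp (hT (hU' _ (he i)).1)
  refine ⟨fun i => ⟨e i, hlt i⟩, fun i j hij => e.strictMono hij, k, fun i j hij => ?_⟩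
  have h1 := hcol _ (hU' _ (he i)).1 _ (hU' _ (he j)).1 (e.strictMono hij)
  rw [(hU' _ (he i)).2] at h1
  rw [← h1]
  simp only [c']
  congr 1
  · exact Fin.ext (by simp [Nat.mod_eq_of_lt (hlt i)])
  · exact Fin.ext (by simp [Nat.mod_eq_of_lt (hlt j)])

end Pool.Agent.Lib.Ramsey
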