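import Pool.Agent.Lib.Ramsey.Finite

/-! The Nesetril-Rodl theorem for edge colourings of graphs with typed edges, by the partite
construction. A typed graph is a family `A : L → SimpleGraph V` of pairwise edge-disjoint graphs. -/

set_option autoImplicit false

namespace Pool.Agent.Lib.Ramsey

open Classical Combinatorics

/-- The graphs of different types are edge-disjoint. -/
def Disj {L V : Type} (A : L → SimpleGraph V) : Prop :=
  ∀ σ τ u v, (A σ).Adj u v → (A τ).Adj u v → σ = τ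

/-- Every clique of the union of the graphs `C σ` maps to `B` preserving types of edges. -/
def Irr {L W V : Type} (C : L → SimpleGraph W) (B : L → SimpleGraph V) : Prop :=
  ∀ K : Set W, (∀ a ∈ K, ∀ b ∈ K, a ≠ b → ∃ σ, (C σ).Adj a b) →
    ∃ g : W → V, ∀ a ∈ K, ∀ b ∈ K, ∀ σ, (C σ).Adj a b → (B σ).Adj (g a) (g b)

theorem Irr.trans {L W V U : Type} {C : L → SimpleGraph W} {B : L → SimpleGraph V}
    {A : L → SimpleGraph U} (h1 : Irr C B) (h2 : Irr B A) : Irr C A := by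
  intro K hK
  obtain ⟨g, hg⟩ := h1 K hK
  obtain ⟨g', hg'⟩ := h2 (g '' K) (by
    rintro _ ⟨a, ha, rfl⟩ _ ⟨b, hb, rfl⟩ hab
    obtain ⟨σ, hσ⟩ := hK a ha b hb (fun e => hab (e ▸ rfl))
    exact ⟨σ, hg a ha b hb σ hσ⟩)
  exact ⟨g' ∘ g, fun a ha b hb σ h =>
    hg' _ ⟨a, ha, rfl⟩ _ ⟨b, hb, rfl⟩ σ (hg a ha b hb σ h)⟩

theorem Irr.refl {L V : Type} (A : L → SimpleGraph V) : Irr A A :=
  fun _ _ => ⟨id, fun _ _ _ _ _ h => h⟩

/-- A picture: a finite typed graph with a projection to the host set `N`. -/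
structure Pic (L N : Type) : Type 1 where
  V : Type
  fin : Finite V
  ne : Nonempty V
  A : L → SimpleGraph V
  disj : Disj A
  π : V → N
  hom : ∀ σ u v, (A σ).Adj u v → π u ≠ π v

/-- Induced, projection preserving embeddings of pictures. -/
structure IsEmb {L N : Type} (P Q : Pic L N) (f : P.V → Q.V) : Prop where
  inj : Function.Injective f
  proj : ∀ u, Q.π (f u) = P.π u
  adj : ∀ σ u v, (Q.A σ).Adj (f u) (f v) ↔ (P.A σ).Adj u v

theorem IsEmb.comp {L N : Type} {P Q R : Pic L N} {f : P.V → Q.V} {g : Q.V → R.V}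
    (hf : IsEmb P Q f) (hg : IsEmb Q R g) : IsEmb P R (g ∘ f) :=
  ⟨hg.inj.comp hf.inj, fun u => by simp [hg.proj, hf.proj],
    fun σ u v => by simp [hg.adj, hf.adj]⟩

theorem IsEmb.id {L N : Type} (P : Pic L N) : IsEmb P P id :=
  ⟨Function.injective_id, fun _ => rfl, fun _ _ _ => Iff.rfl⟩

section Step

variable {L N : Type} (P : Pic L N) (x y : N) (θ : L)

/-- The alphabet: edges of type `θ` between the parts `x` and `y`. -/
def Alph : Type := {p : P.V × P.V // P.π p.1 = x ∧ P.π p.2 = y ∧ (P.A θ).Adj p.1 p.2}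

variable (ι : Type)

/-- The vertex set of the next picture. -/
def NV : Type := (ι → P.V) ⊕ (Line (Alph P x y θ) ι × P.V)

variable {ι}

/-- First coordinates along a line. -/
def lam1 (ℓ : Line (Alph P x y θ) ι) (w : P.V) : ι → P.V :=
  fun i => ((ℓ.idxFun i).map (fun p => p.1.1)).getD w

/-- Second coordinates along a line. -/
def lam2 (ℓ : Line (Alph P x y θ) ι) (w : P.V) : ι → P.V :=
  fun i => ((ℓ.idxFun i).map (fun p => p.1.2)).getD w

/-- The copy of the old picture attached to a line. -/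
noncomputable def psi (ℓ : Line (Alph P x y θ) ι) (w : P.V) : NV P x y θ ι :=
  if P.π w = x then Sum.inl (lam1 P x y θ ℓ w)
  else if P.π w = y then Sum.inl (lam2 P x y θ ℓ w) else Sum.inr (ℓ, w)

variable {P x y θ}

theorem psi_x {ℓ : Line (Alph P x y θ) ι} {w : P.V} (h : P.π w = x) :
    psi P x y θ ℓ w = Sum.inl (lam1 P x y θ ℓ w) := by simp [psi, h]

theorem psi_y (hxy : x ≠ y) {ℓ : Line (Alph P x y θ) ι} {w : P.V} (h : P.π w = y) :
    psi P x y θ ℓ w = Sum.inl (lam2 P x y θ ℓ w) := by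
  have : P.π w ≠ x := fun e => hxy (e.symm.trans h)
  simp only [psi, if_neg this, if_pos h]

theorem psi_o {ℓ : Line (Alph P x y θ) ι} {w : P.V} (h : P.π w ≠ x) (h' : P.π w ≠ y) :
    psi P x y θ ℓ w = Sum.inr (ℓ, w) := by simp only [psi, if_neg h, if_neg h']

theorem lam1_none {ℓ : Line (Alph P x y θ) ι} {w : P.V} {i : ι} (h : ℓ.idxFun i = none) :
    lam1 P x y θ ℓ w i = w := by simp [lam1, h]

theorem lam2_none {ℓ : Line (Alph P x y θ) ι} {w : P.V} {i : ι} (h : ℓ.idxFun i = none) :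
    lam2 P x y θ ℓ w i = w := by simp [lam2, h]

theorem lam1_some {ℓ : Line (Alph P x y θ) ι} {w : P.V} {i : ι} {p : Alph P x y θ}
    (h : ℓ.idxFun i = some p) : lam1 P x y θ ℓ w i = p.1.1 := by simp [lam1, h]

theorem lam2_some {ℓ : Line (Alph P x y θ) ι} {w : P.V} {i : ι} {p : Alph P x y θ}
    (h : ℓ.idxFun i = some p) : lam2 P x y θ ℓ w i = p.1.2 := by simp [lam2, h]

theorem proj_lam1 {ℓ : Line (Alph P x y θ) ι} {w : P.V} (h : P.π w = x) (i : ι) :
    P.π (lam1 P x y θ ℓ w i) = x := by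
  rcases hi : ℓ.idxFun i with _ | p
  · rw [lam1_none hi, h]
  · rw [lam1_some hi, p.2.1]

theorem proj_lam2 {ℓ : Line (Alph P x y θ) ι} {w : P.V} (h : P.π w = y) (i : ι) :
    P.π (lam2 P x y θ ℓ w i) = y := by
  rcases hi : ℓ.idxFun i with _ | p
  · rw [lam2_none hi, h]
  · rw [lam2_some hi, p.2.2.1]

variable (P x y θ)

/-- The projection of the next picture. -/
def nproj (i0 : ι) : NV P x y θ ι → N
  | Sum.inl a => P.π (a i0)
  | Sum.inr q => P.π q.2

variable {P x y θ}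

theorem nproj_psi (hxy : x ≠ y) (i0 : ι) (ℓ : Line (Alph P x y θ) ι) (w : P.V) :
    nproj P x y θ i0 (psi P x y θ ℓ w) = P.π w := by
  by_cases h : P.π w = x
  · rw [psi_x h, h]; exact proj_lam1 h i0
  · by_cases h' : P.π w = y
    · rw [psi_y hxy h', h']; exact proj_lam2 h' i0
    · rw [psi_o h h']; rfl

theorem proj_eq_of_psi_eq (hxy : x ≠ y) {ℓ ℓ' : Line (Alph P x y θ) ι} {w w' : P.V}
    (h : psi P x y θ ℓ w = psi P x y θ ℓ' w') : P.π w = P.π w' := by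
  obtain ⟨i0, -⟩ := ℓ.proper
  rw [← nproj_psi hxy i0 ℓ w, h, nproj_psi hxy i0 ℓ' w']

theorem psi_inj (hxy : x ≠ y) (ℓ : Line (Alph P x y θ) ι) :
    Function.Injective (psi P x y θ ℓ) := by
  intro w w' h
  have hp := proj_eq_of_psi_eq hxy h
  obtain ⟨i, hi⟩ := ℓ.proper
  by_cases h1 : P.π w = x
  · rw [psi_x h1, psi_x (hp ▸ h1)] at h
    have := congrFun (Sum.inl.inj h) i
    rwa [lam1_none hi, lam1_none hi] at this
  · by_cases h2 : P.π w = y
    · rw [psi_y hxy h2, psi_y hxy (hp ▸ h2)] at h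
      have := congrFun (Sum.inl.inj h) i
      rwa [lam2_none hi, lam2_none hi] at this
    · rw [psi_o h1 h2, psi_o (hp ▸ h1) (hp ▸ h2)] at h
      exact (Prod.mk.inj (Sum.inr.inj h)).2

theorem line_eq_of_out (hxy : x ≠ y) {ℓ ℓ' : Line (Alph P x y θ) ι} {w w' : P.V}
    (h : psi P x y θ ℓ w = psi P x y θ ℓ' w') (h1 : P.π w ≠ x) (h2 : P.π w ≠ y) : ℓ = ℓ' := by
  have hp := proj_eq_of_psi_eq hxy h
  rw [psi_o h1 h2, psi_o (hp ▸ h1) (hp ▸ h2)] at h
  exact (Prod.mk.inj (Sum.inr.inj h)).1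

theorem power_lemma {ℓ ℓ' : Line (Alph P x y θ) ι} {u v u' v' : P.V} {σ : L}
    (h1 : lam1 P x y θ ℓ u = lam1 P x y θ ℓ' u') (h2 : lam2 P x y θ ℓ v = lam2 P x y θ ℓ' v')
    (ha : (P.A σ).Adj u' v') : (P.A σ).Adj u v := by
  obtain ⟨i, hi⟩ := ℓ.proper
  have e1 := congrFun h1 i
  have e2 := congrFun h2 i
  rw [lam1_none hi] at e1
  rw [lam2_none hi] at e2
  rcases hi' : ℓ'.idxFun i with _ | p
  · rw [lam1_none hi'] at e1
    rw [lam2_none hi'] at e2
    rw [e1, e2]; exact ha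
  · rw [lam1_some hi'] at e1
    rw [lam2_some hi'] at e2
    have hθ : (P.A θ).Adj u v := by rw [e1, e2]; exact p.2.2.2
    obtain ⟨j, hj⟩ := ℓ'.proper
    have f1 := congrFun h1 j
    have f2 := congrFun h2 j
    rw [lam1_none hj] at f1
    rw [lam2_none hj] at f2
    have hθ' : (P.A θ).Adj u' v' := by
      rw [← f1, ← f2]
      rcases hj' : ℓ.idxFun j with _ | q
      · rw [lam1_none hj', lam2_none hj']; exact hθ
      · rw [lam1_some hj', lam2_some hj']; exact q.2.2.2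
    rw [P.disj σ θ u' v' ha hθ']
    exact hθ

theorem induced_lemma (hxy : x ≠ y) {ℓ ℓ' : Line (Alph P x y θ) ι} {u v u' v' : P.V} {σ : L}
    (h1 : psi P x y θ ℓ u = psi P x y θ ℓ' u') (h2 : psi P x y θ ℓ v = psi P x y θ ℓ' v')
    (ha : (P.A σ).Adj u' v') : (P.A σ).Adj u v := by
  by_cases hl : ℓ = ℓ'
  · subst hl
    rw [psi_inj hxy ℓ h1, psi_inj hxy ℓ h2]; exact ha
  have hu : P.π u = x ∨ P.π u = y := by
    by_contra hc
    rw [not_or] at hc
    exact hl (line_eq_of_out hxy h1 hc.1 hc.2)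
  have hv : P.π v = x ∨ P.π v = y := by
    by_contra hc
    rw [not_or] at hc
    exact hl (line_eq_of_out hxy h2 hc.1 hc.2)
  have p1 := proj_eq_of_psi_eq hxy h1
  have p2 := proj_eq_of_psi_eq hxy h2
  have hne := P.hom σ u' v' ha
  rcases hu with hu | hu <;> rcases hv with hv | hv
  · exact absurd (by rw [← p1, ← p2, hu, hv]) hne
  · rw [psi_x hu, psi_x (p1 ▸ hu)] at h1
    rw [psi_y hxy hv, psi_y hxy (p2 ▸ hv)] at h2
    exact power_lemma (Sum.inl.inj h1) (Sum.inl.inj h2) ha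
  · rw [psi_y hxy hu, psi_y hxy (p1 ▸ hu)] at h1
    rw [psi_x hv, psi_x (p2 ▸ hv)] at h2
    exact (power_lemma (Sum.inl.inj h2) (Sum.inl.inj h1) ha.symm).symm
  · exact absurd (by rw [← p1, ← p2, hu, hv]) hne

/-- The typed graph of the next picture: the union of all copies. -/
def nA (hxy : x ≠ y) (ι : Type) (σ : L) : SimpleGraph (NV P x y θ ι) where
  Adj a b := ∃ ℓ u v, psi P x y θ ℓ u = a ∧ psi P x y θ ℓ v = b ∧ (P.A σ).Adj u v
  symm := ⟨fun _ _ ⟨ℓ, u, v, h1, h2, h⟩ => ⟨ℓ, v, u, h2, h1, h.symm⟩⟩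
  loopless := ⟨fun _ ⟨ℓ, _, _, h1, h2, h⟩ => h.ne (psi_inj hxy ℓ (h1.trans h2.symm))⟩

theorem nA_adj (hxy : x ≠ y) (ℓ : Line (Alph P x y θ) ι) (σ : L) (u v : P.V) :
    (nA hxy ι σ).Adj (psi P x y θ ℓ u) (psi P x y θ ℓ v) ↔ (P.A σ).Adj u v :=
  ⟨fun ⟨_, _, _, h1, h2, h⟩ => induced_lemma hxy h1.symm h2.symm h,
    fun h => ⟨ℓ, u, v, rfl, rfl, h⟩⟩

theorem nA_irr (hxy : x ≠ y) : Irr (nA (P := P) (θ := θ) hxy ι) P.A := by
  intro K hK
  have := P.ne
  have claim : (∀ a ∈ K, ∀ b ∈ K, ∀ σ, ¬ (nA (P := P) (θ := θ) hxy ι σ).Adj a b) ∨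
      ∃ ℓ, ∀ a ∈ K, a ∈ Set.range (psi P x y θ ℓ) := by
    by_contra hc
    rw [not_or] at hc
    obtain ⟨hc1, hc2⟩ := hc
    push Not at hc1
    obtain ⟨a, ha, b, hb, σ, ℓ, u, v, rfl, rfl, huv⟩ := hc1
    apply hc2
    by_cases hout : ∃ ℓ' w, psi P x y θ ℓ' w ∈ K ∧ P.π w ≠ x ∧ P.π w ≠ y
    · obtain ⟨ℓ', w, hw, h1, h2⟩ := hout
      refine ⟨ℓ', fun c hc => ?_⟩
      by_cases e : psi P x y θ ℓ' w = c
      · exact ⟨w, e⟩
      · obtain ⟨τ, ℓ'', p, q, e1, e2, -⟩ := hK _ hw c hc e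
        rw [line_eq_of_out hxy e1.symm h1 h2]
        exact ⟨q, e2⟩
    · push Not at hout
      have hin : ∀ ℓ' w, psi P x y θ ℓ' w ∈ K → P.π w = x ∨ P.π w = y := by
        intro ℓ' w hw
        by_cases h : P.π w = x
        · exact Or.inl h
        · exact Or.inr (hout ℓ' w hw h)
      refine ⟨ℓ, fun c hc => ?_⟩
      by_cases e1 : psi P x y θ ℓ u = c
      · exact ⟨u, e1⟩
      by_cases e2 : psi P x y θ ℓ v = c
      · exact ⟨v, e2⟩
      exfalso
      obtain ⟨τ, ℓ1, p, q, f1, f2, hpq⟩ := hK _ ha c hc e1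
      obtain ⟨τ', ℓ2, p', q', f1', f2', hpq'⟩ := hK _ hb c hc e2
      have g1 := proj_eq_of_psi_eq hxy f1
      have g2 := proj_eq_of_psi_eq hxy f1'
      have g3 := proj_eq_of_psi_eq hxy (f2.trans f2'.symm)
      have n1 := P.hom _ _ _ huv
      have n2 := P.hom _ _ _ hpq
      have n3 := P.hom _ _ _ hpq'
      rw [g1] at n2
      rw [g2, ← g3] at n3
      rcases hin _ _ ha with i1 | i1 <;> rcases hin _ _ hb with i2 | i2 <;>
        rcases hin ℓ1 q (f2 ▸ hc) with i3 | i3 <;> simp_all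
  rcases claim with h | ⟨ℓ, h⟩
  · exact ⟨fun _ => Classical.arbitrary _, fun a ha b hb σ hab => absurd hab (h a ha b hb σ)⟩
  · refine ⟨Function.invFun (psi P x y θ ℓ), fun a ha b hb σ hab => ?_⟩
    obtain ⟨u, rfl⟩ := h a ha
    obtain ⟨v, rfl⟩ := h b hb
    rw [Function.leftInverse_invFun (psi_inj hxy ℓ) u,
      Function.leftInverse_invFun (psi_inj hxy ℓ) v]
    exact (nA_adj hxy ℓ σ u v).mp hab

end Step

theorem step {L N : Type} (κ : Type) [Finite κ] [Nonempty κ] (P : Pic L N) (x y : N) (θ : L) :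
    ∃ Q : Pic L N, Irr Q.A P.A ∧ ∀ χ : Q.V → Q.V → κ, ∃ f, IsEmb P Q f ∧ ∃ c, ∀ u v,
      P.π u = x → P.π v = y → (P.A θ).Adj u v → χ (f u) (f v) = c := by
  by_cases hxy : x = y
  · refine ⟨P, Irr.refl _, fun χ => ⟨id, IsEmb.id P, Classical.arbitrary κ, ?_⟩⟩
    intro u v hu hv h
    exact absurd (by rw [hu, hv, hxy]) (P.hom θ u v h)
  have := P.fin
  have : Finite (Alph P x y θ) := by unfold Alph; infer_instance
  obtain ⟨ι, _, hι⟩ := Line.exists_mono_in_high_dimension (Alph P x y θ) κ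
  obtain ⟨ℓ0, -⟩ := hι (fun _ => Classical.arbitrary κ)
  obtain ⟨i0, -⟩ := ℓ0.proper
  have : Finite (Line (Alph P x y θ) ι) :=
    Finite.of_injective (fun ℓ : Line (Alph P x y θ) ι => ℓ.idxFun)
      (fun ⟨_, _⟩ ⟨_, _⟩ h => by cases h; rfl)
  let Q : Pic L N :=
    { V := NV P x y θ ι
      fin := by unfold NV; infer_instance
      ne := ⟨psi P x y θ ℓ0 P.ne.some⟩
      A := nA hxy ι
      disj := by
        rintro σ τ _ _ ⟨ℓ, u, v, rfl, rfl, h⟩ h'
        exact P.disj σ τ u v h ((nA_adj hxy ℓ τ u v).mp h')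
      π := nproj P x y θ i0
      hom := by
        rintro σ _ _ ⟨ℓ, u, v, rfl, rfl, h⟩
        rw [nproj_psi hxy, nproj_psi hxy]
        exact P.hom σ u v h }
  refine ⟨Q, nA_irr hxy, fun χ => ?_⟩
  obtain ⟨ℓ, c, hc⟩ := hι (fun w => χ (Sum.inl fun i => (w i).1.1) (Sum.inl fun i => (w i).1.2))
  refine ⟨psi P x y θ ℓ, ⟨psi_inj hxy ℓ, nproj_psi hxy i0 ℓ, nA_adj hxy ℓ⟩, c, ?_⟩
  intro u v hu hv h
  rw [psi_x hu, psi_y hxy hv, ← hc ⟨(u, v), hu, hv, h⟩]
  congr 2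
  · funext i
    rcases hi : ℓ.idxFun i with _ | p
    · rw [lam1_none hi]; simp [hi]
    · rw [lam1_some hi]; simp [hi]
  · funext i
    rcases hi : ℓ.idxFun i with _ | p
    · rw [lam2_none hi]; simp [hi]
    · rw [lam2_some hi]; simp [hi]

theorem steps {L N : Type} (κ : Type) [Finite κ] [Nonempty κ] (P : Pic L N)
    (l : List (N × N × L)) :
    ∃ Q : Pic L N, Irr Q.A P.A ∧ ∀ χ : Q.V → Q.V → κ, ∃ f, IsEmb P Q f ∧
      ∀ s ∈ l, ∃ c, ∀ u v, P.π u = s.1 → P.π v = s.2.1 → (P.A s.2.2).Adj u v →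
        χ (f u) (f v) = c := by
  induction l with
  | nil => exact ⟨P, Irr.refl _, fun χ => ⟨id, IsEmb.id P, by simp⟩⟩
  | cons s l ih =>
    obtain ⟨Q, hQ, hQ'⟩ := ih
    obtain ⟨R, hR, hR'⟩ := step κ Q s.1 s.2.1 s.2.2
    refine ⟨R, hR.trans hQ, fun χ => ?_⟩
    obtain ⟨g, hg, c, hc⟩ := hR' χ
    obtain ⟨f, hf, hl⟩ := hQ' (fun a b => χ (g a) (g b))
    refine ⟨g ∘ f, hf.comp hg, fun s' hs' => ?_⟩
    rcases List.mem_cons.mp hs' with rfl | hs'
    · exact ⟨c, fun u v hu hv h => hc (f u) (f v) ((hf.proj u).trans hu) ((hf.proj v).trans hv)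
        ((hf.adj _ u v).mpr h)⟩
    · exact hl s' hs'

/-- The Nesetril-Rodl theorem for edge colourings of typed graphs: there is a finite typed graph
`C` all of whose cliques come from `B`, such that in every symmetric colouring of the pairs of
vertices of `C` there is an induced copy of `B` in which the colour of an edge depends only on
its type. -/
theorem nesetril_rodl {L V : Type} [Finite L] [Finite V] [Nonempty V] (κ : Type) [Finite κ]
    [Nonempty κ] (B : L → SimpleGraph V) (hB : Disj B) :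
    ∃ (W : Type) (_ : Finite W) (C : L → SimpleGraph W), Disj C ∧ Irr C B ∧
      ∀ χ : W → W → κ, (∀ a b, χ a b = χ b a) → ∃ φ : V → W, Function.Injective φ ∧
        (∀ σ u v, (C σ).Adj (φ u) (φ v) ↔ (B σ).Adj u v) ∧
        ∃ c : L → κ, ∀ σ u v, (B σ).Adj u v → χ (φ u) (φ v) = c σ := by
  have := Fintype.ofFinite V
  have := Fintype.ofFinite L
  obtain ⟨N, hN0, hN⟩ := finite_ramsey (L → κ) (Fintype.card V)
  have : Nonempty (Fin N) := ⟨⟨0, hN0⟩⟩
  let P : Pic L (Fin N) :=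
    { V := (V → Fin N) × V
      fin := inferInstance
      ne := inferInstance
      A := fun σ =>
        { Adj := fun a b => a.1 = b.1 ∧ (B σ).Adj a.2 b.2 ∧ a.1 a.2 ≠ b.1 b.2
          symm := ⟨fun _ _ h => ⟨h.1.symm, h.2.1.symm, h.2.2.symm⟩⟩
          loopless := ⟨fun _ h => h.2.2 rfl⟩ }
      disj := fun σ τ a b h h' => hB σ τ _ _ h.2.1 h'.2.1
      π := fun a => a.1 a.2
      hom := fun _ _ _ h => h.2.2 }
  have hPB : Irr P.A B := fun K _ => ⟨Prod.snd, fun _ _ _ _ _ h => h.2.1⟩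
  obtain ⟨Q, hQ, hQ'⟩ := steps κ P (Finset.univ : Finset (Fin N × Fin N × L)).toList
  refine ⟨Q.V, Q.fin, Q.A, Q.disj, hQ.trans hPB, fun χ hχ => ?_⟩
  obtain ⟨f, hf, hl⟩ := hQ' χ
  choose c hc using fun s => hl s (Finset.mem_toList.mpr (Finset.mem_univ s))
  obtain ⟨g, hg, k, hk⟩ := hN (fun a b σ => c (a, b, σ))
  let e := Fintype.equivFin V
  let g' : V → Fin N := fun v => g (e v)
  have hg' : Function.Injective g' := hg.injective.comp e.injective
  have hadj : ∀ σ u v, (P.A σ).Adj (g', u) (g', v) ↔ (B σ).Adj u v :=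
    fun σ u v => ⟨fun h => h.2.1, fun h => ⟨rfl, h, fun e' => h.ne (hg' e')⟩⟩
  refine ⟨fun v => f (g', v), fun u v h => (Prod.mk.inj (hf.inj h)).2,
    fun σ u v => (hf.adj σ _ _).trans (hadj σ u v), k, ?_⟩
  have key : ∀ σ u v, (B σ).Adj u v → e u < e v → χ (f (g', u)) (f (g', v)) = k σ := by
    intro σ u v h hlt
    rw [hc (g' u, g' v, σ) (g', u) (g', v) rfl rfl ((hadj σ u v).mpr h)]
    exact congrFun (hk _ _ hlt) σ
  intro σ u v h
  rcases lt_trichotomy (e u) (e v) with hlt | heq | hlt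
  · exact key σ u v h hlt
  · exact absurd (e.injective heq) h.ne
  · rw [hχ]; exact key σ v u h.symm hlt

end Pool.Agent.Lib.Ramsey
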